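import Pool.Agent.PFC.StmtsB6
import Pool.Agent.Helper66_PP.Pos1
import Pool.Agent.Helper50_PP.Ffa

/-!
# Squad PFC, row FFA: the fields `fin`, `frm`, `loc`, `top`
-/

open scoped BigOperators

noncomputable section

namespace Pool.Agent.PFC.H9F

open Pool.Agent.Helper51_AWC Pool.Agent.Helper79_WRA Pool.Agent.PP Pool.Agent.PP.KF
open Pool.Agent.PP.K9 Pool.Agent.PP.K9.H97 Pool.Agent.PP.H75 Pool.Agent.PP.T3 Pool.Agent.PP.T2
open Pool.Agent.PP.T8 (Fr rs pw)

section gen

variable {F G : Type} [Field F] [Group G] [Finite G]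

/-- The coefficient at one is a trace. -/
theorem mulF_one_comm (a b : G → F) : mulF a b 1 = mulF b a 1 := by
  unfold mulF
  rw [← finsum_comp_equiv (Equiv.inv G)]
  apply finsum_congr
  intro t
  rw [Equiv.inv_apply, mul_one, mul_one, inv_inv, mul_comm]

theorem pw_zero_eq (x : G → F) : pw x 0 = dl F (1 : G) := by
  funext g
  unfold pw dl
  by_cases h : g = 1
  · simp only [if_pos h]
  · simp only [if_neg h]

variable {j : G → F} (hj : mulF j j = j)

theorem cv_pow (a : Crn hj) (n : ℕ) : cv (a ^ (n + 1)) = pw (cv a) (n + 1) := by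
  induction n with
  | zero =>
    change cv (a ^ 1) = mulF (cv a) (pw (cv a) 0)
    rw [pow_one, pw_zero_eq, mulF_dl_r]
    funext y
    rw [inv_one, mul_one]
  | succ n ih =>
    rw [pow_succ', cv_mul, ih]
    rfl

theorem cv_sum {κ : Type} (s : Finset κ) (f : κ → Crn hj) :
    cv (∑ i ∈ s, f i) = ∑ i ∈ s, cv (f i) := by
  classical
  induction s using Finset.induction_on with
  | empty => rw [Finset.sum_empty, Finset.sum_empty]; exact cv_zero hj
  | insert a s ha ih => rw [Finset.sum_insert ha, Finset.sum_insert ha, cv_add, ih]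

theorem fin_crn : FiniteDimensional F (Crn hj) :=
  inferInstanceAs (FiniteDimensional F (CnS j))

/-- the coefficient at one -/
def lam1 : Crn hj →ₗ[F] F where
  toFun := fun a => cv a 1
  map_add' := fun _ _ => rfl
  map_smul' := fun _ _ => rfl

theorem lam1_apply (a : Crn hj) : lam1 hj a = cv a 1 := rfl

theorem lam1_sym (a b : Crn hj) : lam1 hj (a * b) = lam1 hj (b * a) := by
  rw [lam1_apply, lam1_apply, cv_mul, cv_mul]
  exact mulF_one_comm _ _

theorem lam1_nd (a : Crn hj) (h : ∀ b, lam1 hj (a * b) = 0) : a = 0 := by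
  apply cv_inj hj
  rw [cv_zero]
  funext g
  have h1 := h (mkj hj (dl F g⁻¹))
  rw [lam1_apply, cv_mul, cv_mkj, ← H20.mulF_assoc, cv_r, ← H20.mulF_assoc,
    mulF_one_comm, ← H20.mulF_assoc, cv_l, mulF_dl_r] at h1
  change cv a (1 * g⁻¹⁻¹) = 0 at h1
  rw [inv_inv, one_mul] at h1
  exact h1

variable {W : Type} [CommGroup W] [Fintype W] (ι : W →* G)
  (hv : ∀ w x, j (ι w * x * (ι w)⁻¹) = j x)

theorem sumV (hι : Function.Injective ι) {N : Type} [AddCommMonoid N] (f : ι.range → N) :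
    ∑ᶠ v, f v = ∑ u : W, f ⟨ι u, ⟨u, rfl⟩⟩ := by
  rw [← finsum_comp_equiv (MonoidHom.ofInjective hι).toEquiv, finsum_eq_sum_of_fintype]
  apply Finset.sum_congr rfl
  intro u _
  rfl

theorem inv_of_comm (a : Crn hj) (w : W) (h : jal hj ι hv w * a = a * jal hj ι hv w) (x : G) :
    cv a (ι w * x * (ι w)⁻¹) = cv a x := by
  have h1 := congrArg cv h
  rw [cv_mul, cv_mul, cv_jal, H20.mulF_assoc, cv_l, dl_comm (hv w), ← H20.mulF_assoc, cv_r,
    mulF_dl_l, mulF_dl_r] at h1
  have h2 := congrFun h1 (ι w * x)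
  rw [inv_mul_cancel_left] at h2
  exact h2.symm

theorem lam1_nz (hι : Function.Injective ι) (h : ∑ᶠ v : ι.range, j v ≠ 0) :
    lam1 hj (∑ u, jal hj ι hv u) ≠ 0 := by
  rw [lam1_apply, cv_sum, Finset.sum_apply]
  have h1 : ∀ u : W, cv (jal hj ι hv u) 1 = j (ι u⁻¹) := by
    intro u
    rw [cv_jal, mulF_dl_l, map_inv]
    change j ((ι u)⁻¹ * 1) = _
    rw [mul_one]
  rw [Finset.sum_congr rfl fun u _ => h1 u]
  rw [sumV ι hι] at h
  have h2 := Equiv.sum_comp (Equiv.inv W) (fun u => j (ι u))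
  intro h3
  apply h
  exact h2.symm.trans h3

theorem fx_comm (a : Crn hj) (h : a ∈ Fx (cj F (jal hj ι hv)) ⊤) (w : W) :
    jal hj ι hv w * a = a * jal hj ι hv w := by
  have h1 : jal hj ι hv w * (a * jal hj ι hv w⁻¹) = a := h w (Subgroup.mem_top w)
  calc jal hj ι hv w * a = jal hj ι hv w * (a * jal hj ι hv w⁻¹) * jal hj ι hv w := by
        rw [mul_assoc, mul_assoc, ← map_mul, inv_mul_cancel, map_one, mul_one]
    _ = a * jal hj ι hv w := by rw [h1]

theorem fx_jal (u : W) : jal hj ι hv u ∈ Fx (cj F (jal hj ι hv)) ⊤ := by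
  intro w _
  change jal hj ι hv w * (jal hj ι hv u * jal hj ι hv w⁻¹) = jal hj ι hv u
  rw [← map_mul, ← map_mul, mul_comm u, mul_inv_cancel_left]

theorem fx_sum (c : W → F) : ∑ u, c u • jal hj ι hv u ∈ Fx (cj F (jal hj ι hv)) ⊤ :=
  Submodule.sum_mem _ fun u _ => Submodule.smul_mem _ _ (fx_jal hj ι hv u)

theorem cv_comb (c : W → F) (g : G) :
    cv (∑ u, c u • jal hj ι hv u) g = ∑ u, c u * j ((ι u)⁻¹ * g) := by
  rw [cv_sum, Finset.sum_apply]
  apply Finset.sum_congr rfl
  intro u _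
  rw [cv_smul, cv_jal, mulF_dl_l]
  rfl

theorem mem_cen (u : W) : ι u ∈ Subgroup.centralizer (ι.range : Set G) := by
  rw [Subgroup.mem_centralizer_iff]
  rintro _ ⟨v, rfl⟩
  rw [← map_mul, ← map_mul, mul_comm]

open Classical in
/-- The combinations of the elements of `V` and of the idempotent, restricted to `C(V)`. -/
theorem comb_br (hι : Function.Injective ι) (c : ι.range → F) (g : G) :
    (∑ᶠ v : ι.range, c v • mulF (dl F (v : G)) (br ι.range j)) g =
      if g ∈ Subgroup.centralizer (ι.range : Set G) then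
        ∑ u, c ⟨ι u, ⟨u, rfl⟩⟩ * j ((ι u)⁻¹ * g) else 0 := by
  classical
  rw [sumV ι hι, Finset.sum_apply]
  by_cases hg : g ∈ Subgroup.centralizer (ι.range : Set G)
  · rw [if_pos hg]
    apply Finset.sum_congr rfl
    intro u _
    rw [Pi.smul_apply, mulF_dl_l]
    change c ⟨ι u, ⟨u, rfl⟩⟩ * br ι.range j ((ι u)⁻¹ * g) = _
    rw [H66.br_of_mem (mul_mem (inv_mem (mem_cen ι u)) hg)]
  · rw [if_neg hg]
    apply Finset.sum_eq_zero
    intro u _
    rw [Pi.smul_apply, mulF_dl_l]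
    change c ⟨ι u, ⟨u, rfl⟩⟩ * br ι.range j ((ι u)⁻¹ * g) = 0
    rw [H66.br_of_not_mem, mul_zero]
    intro h
    apply hg
    have h2 := mul_mem (mem_cen ι u) h
    rwa [mul_inv_cancel_left] at h2

end gen

section main

attribute [local instance] Ideal.Quotient.field

/-- Row FFA. -/
theorem ffa (cfb : CfbStmt) (cps : CpsStmt) : FfaStmt := by
  intro ℓ hℓ M hMm hM G _ _ e V γ hL j hJ W _ _ ι hι hV hj hv
  classical
  have hG : GoodF ℓ (FF M) := H50.fld ℓ Fact.out M hM
  have hch : CharP (FF M) ℓ := hG.char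
  subst hV
  have hW : IsPGroup ℓ W := by
    apply hL.tp.pg.of_injective ι.rangeRestrict
    intro a b hab
    exact hι (congrArg Subtype.val hab)
  obtain ⟨hspan, hfree, hnz⟩ := cfb ℓ M hM G e ι.range γ hL j hJ
  obtain ⟨-, -, hbk⟩ := cps ℓ (FF M) G W ι hι hW j hj hv
  have hmap : (Subgroup.map ι ⊤ : Subgroup G) = ι.range := (MonoidHom.range_eq_map ι).symm
  have hbk' : ∀ a : Crn hj, a ∈ Fx (cj (FF M) (jal hj ι hv)) ⊤ →
      (a ∈ BK (cj (FF M) (jal hj ι hv)) ⊤ ↔
        ∀ g ∈ Subgroup.centralizer (ι.range : Set G), cv a g = 0) := by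
    intro a ha
    have h1 := hbk ⊤ a ha
    rw [hmap] at h1
    exact h1
  have hinvj : H66.Inv ι.range j := by
    rintro _ ⟨w, rfl⟩ x
    exact hv w x
  refine ⟨fin_crn hj, ⟨lam1 hj, lam1_sym hj, lam1_nd hj, lam1_nz hj ι hv hι hnz⟩, ?_, ?_⟩
  · -- local
    have hj0 : j ≠ 0 := by
      intro h0
      apply hnz
      rw [h0]
      exact finsum_zero
    have hnt : Nontrivial (Cz (FF M) (jal hj ι hv) ⊤) := by
      refine ⟨⟨0, 1, ?_⟩⟩
      intro h
      have h1 : (0 : Crn hj) = 1 := congrArg Subtype.val h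
      apply hj0
      have h2 := congrArg cv h1
      rw [cv_one, cv_zero] at h2
      exact h2.symm
    refine @IsLocalRing.of_is_unit_or_is_unit_of_add_one _ _ hnt ?_
    intro a b hab
    have hb : b = 1 - a := by rw [← hab]; abel
    have hinv : ∀ v ∈ ι.range, ∀ x, cv (a : Crn hj) (v * x * v⁻¹) = cv (a : Crn hj) x := by
      rintro _ ⟨w, rfl⟩ x
      apply inv_of_comm hj ι hv
      have h1 := a.2
      unfold Cz at h1
      rw [Subalgebra.mem_centralizer_iff] at h1
      exact h1 _ ⟨w, Subgroup.mem_top w, rfl⟩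
    obtain ⟨n, hn, hn'⟩ := hJ.lo (cv (a : Crn hj)) hinv (cv_l hj _) (cv_r hj _)
    obtain ⟨m, rfl⟩ : ∃ m, n = m + 1 := ⟨n - 1, by omega⟩
    rw [← cv_pow hj] at hn'
    rcases hn' with h1 | h1
    · left
      apply IsUnit.of_pow_eq_one (n := m + 1) _ (Nat.succ_ne_zero m)
      apply Subtype.ext
      apply cv_inj hj
      exact h1
    · right
      rw [hb]
      apply IsNilpotent.isUnit_one_sub
      refine ⟨m + 1, ?_⟩
      apply Subtype.ext
      apply cv_inj hj
      exact h1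
  · -- top
    constructor
    · intro a ha
      have hinv : H66.Inv ι.range (cv a) := by
        rintro _ ⟨w, rfl⟩ x
        exact inv_of_comm hj ι hv a w (fx_comm hj ι hv a ha w) x
      obtain ⟨c, hc⟩ := hspan (br ι.range (cv a)) (fun g hg => H66.br_of_not_mem hg)
        (by rw [← H66.br_mulF hG hL.tp.pg hinvj hinv, cv_l])
        (by rw [← H66.br_mulF hG hL.tp.pg hinv hinvj, cv_r])
      refine ⟨fun u => c ⟨ι u, ⟨u, rfl⟩⟩, ?_⟩
      rw [hbk' _ (Submodule.sub_mem _ ha (fx_sum hj ι hv _))]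
      intro g hg
      have h1 : cv (a - ∑ u, c ⟨ι u, ⟨u, rfl⟩⟩ • jal hj ι hv u) g =
          cv a g - cv (∑ u, c ⟨ι u, ⟨u, rfl⟩⟩ • jal hj ι hv u) g := rfl
      rw [h1, cv_comb hj ι hv (fun u => c ⟨ι u, ⟨u, rfl⟩⟩), sub_eq_zero]
      have h2 := congrFun hc g
      rw [comb_br ι hι, if_pos hg, H66.br_of_mem hg] at h2
      exact h2
    · intro c hc
      rw [hbk' _ (fx_sum hj ι hv c)] at hc
      let e' := MonoidHom.ofInjective hι
      have h1 := hfree (fun v => c (e'.symm v)) (by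
        funext g
        rw [comb_br ι hι]
        by_cases hg : g ∈ Subgroup.centralizer (ι.range : Set G)
        · rw [if_pos hg]
          have h2 := hc g hg
          rw [cv_comb hj ι hv] at h2
          rw [Pi.zero_apply, ← h2]
          apply Finset.sum_congr rfl
          intro u _
          have h3 : e'.symm ⟨ι u, ⟨u, rfl⟩⟩ = u := e'.symm_apply_apply u
          rw [h3]
        · rw [if_neg hg]
          rfl)
      funext u
      have h2 := congrFun h1 (e' u)
      have h3 : e'.symm (e' u) = u := e'.symm_apply_apply u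
      simp only [h3] at h2
      exact h2

end main

end Pool.Agent.PFC.H9F
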