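import Pool.Agent.PFC.StmtsB4b

/-!
# Squad PFC, row QVP: the `V × V`-structure of `S ⊗ X`
-/

open scoped BigOperators TensorProduct

noncomputable section

namespace Pool.Agent.PFC.H9Q

open MulAction

theorem bi_apply {F V A : Type} [Field F] [Group V] [Ring A] [Algebra F A] (α : V →* A)
    (h : V × V) (a : A) : bi F α h a = α h.1 * (a * α h.2⁻¹) := rfl

theorem cj_apply {F V A : Type} [Field F] [Group V] [Ring A] [Algebra F A] (α : V →* A)
    (v : V) (a : A) : cj F α v a = α v * (a * α v⁻¹) := rfl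

/-- a choice of representatives of the orbits -/
theorem exists_rep (H Ω : Type) [Group H] [MulAction H Ω] :
    ∃ rep : Ω → Ω, (∀ (g : H) ω, rep (g • ω) = rep ω) ∧ ∀ ω, ∃ g : H, g • rep ω = ω := by
  refine ⟨fun ω => (Quotient.mk (orbitRel H Ω) ω).out, ?_, ?_⟩
  · intro g ω
    apply congrArg Quotient.out
    apply Quotient.sound
    exact ⟨g, rfl⟩
  · intro ω
    obtain ⟨g, hg⟩ := Quotient.mk_out (s := orbitRel H Ω) ω
    refine ⟨g⁻¹, ?_⟩
    change g⁻¹ • (Quotient.mk (orbitRel H Ω) ω).out = ω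
    rw [← hg]
    exact inv_smul_smul g ω

theorem mem_tw {V : Type} [Group V] (φ : V →* V) (R : Subgroup V) (h : V × V) :
    h ∈ tw φ R ↔ h.2 ∈ R ∧ h.1 = φ h.2 := by
  unfold tw
  constructor
  · rintro ⟨r, hr, rfl⟩
    exact ⟨hr, rfl⟩
  · rintro ⟨h1, h2⟩
    refine ⟨h.2, h1, ?_⟩
    apply Prod.ext
    · exact h2.symm
    · rfl

/-- The functions `σ` and `d`. -/
theorem exists_d {V E Ω : Type} [CommGroup V] [Group E] (φ : E →* MulAut V)
    [MulAction (V × V) Ω]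
    (hΩ : ∀ ω : Ω, ∃ (e : E) (R : Subgroup V),
      stabilizer (V × V) ω = tw (φ e).toMonoidHom R) :
    ∃ (e : Ω → E) (R : Ω → Subgroup V) (d : Ω → V),
      (∀ (h : V × V) ω, e (h • ω) = e ω) ∧
      (∀ ω, stabilizer (V × V) ω = tw (φ (e ω)).toMonoidHom (R ω)) ∧
      ∀ (h : V × V) ω, d (h • ω) = h.1 * d ω * (φ (e ω) h.2)⁻¹ := by
  obtain ⟨rep, hrep, hg⟩ := exists_rep (V × V) Ω
  choose g hg using hg
  choose e0 R0 h0 using hΩ
  have hcomm : ∀ (a b : V × V), a * b = b * a := fun a b => mul_comm a b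
  have hst : ∀ ω (h : V × V), h • ω = ω ↔ h • rep ω = rep ω := by
    intro ω h
    conv_lhs => rw [← hg ω]
    rw [← mul_smul, hcomm, mul_smul]
    constructor
    · intro h1
      exact smul_left_cancel _ h1
    · intro h1
      rw [h1]
  have hwell : ∀ ω (h : V × V), h • rep ω = rep ω → h.1 = φ (e0 (rep ω)) h.2 := by
    intro ω h hh
    have h1 : h ∈ stabilizer (V × V) (rep ω) := hh
    rw [h0, mem_tw] at h1
    exact h1.2
  refine ⟨fun ω => e0 (rep ω), fun ω => R0 (rep ω),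
    fun ω => (g ω).1 * (φ (e0 (rep ω)) (g ω).2)⁻¹, ?_, ?_, ?_⟩
  · intro h ω
    exact congrArg e0 (hrep h ω)
  · intro ω
    rw [← h0 (rep ω)]
    ext h
    exact hst ω h
  · intro h ω
    have h1 : ((h * g ω)⁻¹ * g (h • ω)) • rep ω = rep ω := by
      have h2 := hg (h • ω)
      rw [hrep] at h2
      rw [mul_smul, h2, inv_smul_eq_iff, mul_smul, hg]
    have h3 := hwell ω _ h1
    have h4 : (g (h • ω)).1 = (h * g ω).1 * φ (e0 (rep ω)) ((h * g ω)⁻¹ * g (h • ω)).2 := by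
      rw [← h3]
      change (g (h • ω)).1 = (h * g ω).1 * (((h * g ω).1)⁻¹ * (g (h • ω)).1)
      rw [mul_inv_cancel_left]
    change (g (h • ω)).1 * (φ (e0 (rep (h • ω))) (g (h • ω)).2)⁻¹ =
      h.1 * ((g ω).1 * (φ (e0 (rep ω)) (g ω).2)⁻¹) * (φ (e0 (rep ω)) h.2)⁻¹
    rw [hrep, h4, Prod.snd_mul, Prod.snd_inv, Prod.snd_mul, Prod.fst_mul, map_mul, map_inv,
      map_mul, mul_inv]
    rw [← mul_assoc, mul_assoc (h.1 * (g ω).1 * _), mul_inv_cancel, mul_one]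
    rw [← mul_assoc h.1, mul_assoc (h.1 * (g ω).1), mul_comm ((φ (e0 (rep ω))) h.2)⁻¹]

/-- The frame of the tensor product. -/
theorem main {F V E A B : Type} [Field F] [CommGroup V] [Group E] [Ring A] [Algebra F A]
    [Ring B] [Algebra F B] (φ : E →* MulAut V) (α : V →* A) (β : V →* B)
    (τ : V →* A ⊗[F] B) (hτ : ∀ v, τ v = α v ⊗ₜ[F] β v)
    (hS : PS (fun _ => True) (cj F α))
    (hR : ∀ e, ∃ y : Aˣ, ∀ v, (y : A) * α v = α (φ e v) * y)
    (hX : PS (fun K => ∃ (e : E) (R : Subgroup V), K = tw (φ e).toMonoidHom R) (bi F β)) :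
    PS (fun K => ∃ (e : E) (R : Subgroup V), K = tw (φ e).toMonoidHom R) (bi F τ) := by
  obtain ⟨ΩS, fS, aS, b, c, ⟨hb, hc, hbc⟩, -⟩ := hS
  obtain ⟨Ω, fΩ, aΩ, b', c', ⟨hb', hc', hbc'⟩, hst⟩ := hX
  obtain ⟨e, R, d, he, hstab, hd⟩ := exists_d φ hst
  choose y hy using hR
  have hy' : ∀ e v, ((y e)⁻¹ : Aˣ) * α (φ e v) = α v * ((y e)⁻¹ : Aˣ) := by
    intro e v
    rw [Units.inv_mul_eq_iff_eq_mul, ← mul_assoc, hy, mul_assoc, Units.mul_inv, mul_one]
  let act : MulAction (V × V) (ΩS × Ω) :=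
    { smul := fun g p => (g.2 • p.1, g • p.2)
      one_smul := by
        rintro ⟨k, ω⟩
        change (((1 : V × V).2 • k), ((1 : V × V) • ω)) = (k, ω)
        rw [Prod.snd_one, one_smul, one_smul]
      mul_smul := by
        rintro g h ⟨k, ω⟩
        change ((g * h).2 • k, (g * h) • ω) = (g.2 • h.2 • k, g • h • ω)
        rw [Prod.snd_mul, mul_smul, mul_smul] }
  let Bv : ΩS × Ω → A ⊗[F] B := fun p =>
    (α (d p.2) * (y (e p.2) : A) * b p.1) ⊗ₜ[F] b' p.2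
  let Cf : ΩS × Ω → (A ⊗[F] B →ₗ[F] F) := fun p =>
    (LinearMap.mul' F F) ∘ₗ TensorProduct.map
      (c p.1 ∘ₗ LinearMap.mulLeft F ((((y (e p.2))⁻¹ : Aˣ) : A) * α (d p.2)⁻¹)) (c' p.2)
  have hCf : ∀ p s a, Cf p (s ⊗ₜ[F] a) =
      c p.1 ((((y (e p.2))⁻¹ : Aˣ) : A) * α (d p.2)⁻¹ * s) * c' p.2 a := fun p s a => rfl
  have hbi : ∀ (h : V × V) (s : A) (a : B), bi F τ h (s ⊗ₜ[F] a) =
      (α h.1 * (s * α h.2⁻¹)) ⊗ₜ[F] (β h.1 * (a * β h.2⁻¹)) := by
    intro h s a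
    rw [bi_apply, hτ, hτ, Algebra.TensorProduct.tmul_mul_tmul,
      Algebra.TensorProduct.tmul_mul_tmul]
  refine ⟨ΩS × Ω, inferInstance, act, Bv, Cf, ⟨?_, ?_, ?_⟩, ?_⟩
  · rintro ⟨u, v⟩ ⟨k, ω⟩
    change (α (d ((u, v) • ω)) * (y (e ((u, v) • ω)) : A) * b (v • k)) ⊗ₜ[F]
      b' ((u, v) • ω) = bi F τ (u, v) ((α (d ω) * (y (e ω) : A) * b k) ⊗ₜ[F] b' ω)
    rw [hbi, he, hd, hb, hb', cj_apply, bi_apply]
    congr 1
    calc α (u * d ω * (φ (e ω) v)⁻¹) * (y (e ω) : A) * (α v * (b k * α v⁻¹))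
        = α (u * d ω * (φ (e ω) v)⁻¹) * ((y (e ω) : A) * α v) * (b k * α v⁻¹) := by
          simp only [mul_assoc]
      _ = α (u * d ω * (φ (e ω) v)⁻¹ * (φ (e ω) v)) * (y (e ω) : A) * (b k * α v⁻¹) := by
          rw [hy, map_mul α _ (φ (e ω) v)]
          simp only [mul_assoc]
      _ = α u * (α (d ω) * (y (e ω) : A) * b k * α v⁻¹) := by
          rw [inv_mul_cancel_right, map_mul]
          simp only [mul_assoc]
  · rintro ⟨u, v⟩ ⟨k, ω⟩ m
    change Cf (v • k, (u, v) • ω) (bi F τ (u, v) m) = Cf (k, ω) m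
    induction m using TensorProduct.induction_on with
    | zero => rw [map_zero, map_zero, map_zero]
    | tmul s a =>
      rw [hbi, hCf, hCf]
      change c (v • k) ((((y (e ((u, v) • ω)))⁻¹ : Aˣ) : A) * α (d ((u, v) • ω))⁻¹ *
        (α u * (s * α v⁻¹))) * c' ((u, v) • ω) (bi F β (u, v) a) = _
      rw [hc', he, hd]
      congr 1
      rw [← hc v k, cj_apply]
      congr 1
      have h1 : (u * d ω * (φ (e ω) v)⁻¹)⁻¹ = φ (e ω) v * (d ω)⁻¹ * u⁻¹ := by
        rw [mul_inv, inv_inv, mul_inv, mul_comm, mul_comm u⁻¹, mul_assoc]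
      change ((((y (e ω))⁻¹ : Aˣ) : A) * α (u * d ω * (φ (e ω) v)⁻¹)⁻¹ *
        (α u * (s * α v⁻¹))) = _
      rw [h1]
      calc ((((y (e ω))⁻¹ : Aˣ) : A) * α (φ (e ω) v * (d ω)⁻¹ * u⁻¹) * (α u * (s * α v⁻¹)))
          = ((((y (e ω))⁻¹ : Aˣ) : A) * α (φ (e ω) v)) * α ((d ω)⁻¹) * (α (u⁻¹ * u)) *
              (s * α v⁻¹) := by
            rw [map_mul, map_mul, map_mul]
            simp only [mul_assoc]
        _ = α v * ((((y (e ω))⁻¹ : Aˣ) : A) * α (d ω)⁻¹ * s * α v⁻¹) := by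
            rw [hy', inv_mul_cancel, map_one, mul_one]
            simp only [mul_assoc]
    | add x z hx hz => rw [map_add, map_add, map_add, hx, hz]
  · intro m
    induction m using TensorProduct.induction_on with
    | zero =>
      apply Finset.sum_eq_zero
      intro p _
      rw [map_zero, zero_smul]
    | tmul s a =>
      rw [Fintype.sum_prod_type_right]
      have h1 : ∀ ω, ∑ k, Cf (k, ω) (s ⊗ₜ[F] a) • Bv (k, ω) = s ⊗ₜ[F] (c' ω a • b' ω) := by
        intro ω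
        have h2 : ∀ k, Cf (k, ω) (s ⊗ₜ[F] a) • Bv (k, ω) =
            (α (d ω) * (y (e ω) : A) *
              (c k ((((y (e ω))⁻¹ : Aˣ) : A) * α (d ω)⁻¹ * s) • b k)) ⊗ₜ[F]
              (c' ω a • b' ω) := by
          intro k
          rw [hCf]
          change (c k ((((y (e ω))⁻¹ : Aˣ) : A) * α (d ω)⁻¹ * s) * c' ω a) •
            ((α (d ω) * (y (e ω) : A) * b k) ⊗ₜ[F] b' ω) = _
          rw [mul_smul_comm, TensorProduct.tmul_smul, ← TensorProduct.smul_tmul',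
            mul_comm (c k _), mul_smul]
        rw [Finset.sum_congr rfl fun k _ => h2 k, ← TensorProduct.sum_tmul,
          ← Finset.mul_sum, hbc]
        congr 1
        calc α (d ω) * (y (e ω) : A) * ((((y (e ω))⁻¹ : Aˣ) : A) * α (d ω)⁻¹ * s)
            = α (d ω) * ((y (e ω) : A) * (((y (e ω))⁻¹ : Aˣ) : A)) * α (d ω)⁻¹ * s := by
              simp only [mul_assoc]
          _ = s := by
              rw [Units.mul_inv, mul_one, ← map_mul, mul_inv_cancel, map_one, one_mul]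
      rw [Finset.sum_congr rfl fun ω _ => h1 ω, ← TensorProduct.tmul_sum, hbc']
    | add x z hx hz =>
      have h1 : ∀ p, Cf p (x + z) • Bv p = Cf p x • Bv p + Cf p z • Bv p := by
        intro p
        rw [map_add, add_smul]
      rw [Finset.sum_congr rfl fun p _ => h1 p, Finset.sum_add_distrib, hx, hz]
  · rintro ⟨k, ω⟩
    refine ⟨e ω, R ω ⊓ stabilizer V k, ?_⟩
    ext h
    rw [mem_tw, Subgroup.mem_inf]
    have h1 : h ∈ @stabilizer (V × V) (ΩS × Ω) _ act (k, ω) ↔ (h.2 • k = k ∧ h • ω = ω) := by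
      change (h.2 • k, h • ω) = (k, ω) ↔ _
      rw [Prod.mk.injEq]
    rw [h1]
    have h2 : h • ω = ω ↔ h ∈ stabilizer (V × V) ω := Iff.rfl
    rw [h2, hstab, mem_tw]
    have h3 : h.2 ∈ stabilizer V k ↔ h.2 • k = k := Iff.rfl
    rw [h3]
    tauto

/-- Row QVP. -/
theorem qvp : QvpStmt := by
  intro F V E _ _ _ _ φ S X hS hR hX
  exact main φ S.ι X.ι (S.tens X).ι (fun _ => rfl) hS hR hX

end Pool.Agent.PFC.H9Q
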