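import Pool.Agent.PFC.StmtsB2

/-!
# Squad PFC, row AEX: a null intertwiner extends to a null intertwiner
-/

noncomputable section

namespace Pool.Agent.PFC.B2.H9A

open Pool.Agent.PFC.B1 Pool.Agent.PFC.B2

theorem smul_act {R A k M : Type} [CommRing R] [Ring A] [Algebra R A] [CommRing k] [Algebra R k]
    [AddCommGroup M] [Module k M] (τ : Rp R A k M) (r : R) (a : A) (v : M) :
    τ.ρ (r • a) v = algebraMap R k r • τ.ρ a v := by
  rw [Algebra.smul_def, map_mul]
  exact τ.sc r _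

theorem X_ne {F L : Type} [Field F] [Field L] [Algebra (PowerSeries F) L]
    [IsFractionRing (PowerSeries F) L] (n : ℕ) :
    algebraMap (PowerSeries F) L (PowerSeries.X ^ n) ≠ 0 := by
  intro h
  have h1 : (PowerSeries.X ^ n : PowerSeries F) = 0 := by
    apply IsFractionRing.injective (PowerSeries F) L
    rw [h, map_zero]
  exact pow_ne_zero n PowerSeries.X_ne_zero h1

section nak

variable {F Γ H : Type} [Field F] [Ring Γ] [Algebra (PowerSeries F) Γ] [Ring H]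
  [Algebra (PowerSeries F) H] (nk : Nk F Γ H)

theorem pow_comm1 (k : ℕ) : ∀ h, ∃ h', nk.x ^ k * nk.j h = nk.j h' * nk.x ^ k := by
  induction k with
  | zero => exact fun h => ⟨h, by rw [pow_zero, one_mul, mul_one]⟩
  | succ k ih =>
    intro h
    obtain ⟨h', hh⟩ := ih (nk.s h)
    refine ⟨h', ?_⟩
    rw [pow_succ, mul_assoc, nk.cm, ← mul_assoc, hh, mul_assoc]

theorem pow_comm2 (k : ℕ) : ∀ h, ∃ h', nk.j h * nk.x ^ k = nk.x ^ k * nk.j h' := by
  induction k with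
  | zero => exact fun h => ⟨h, by rw [pow_zero, one_mul, mul_one]⟩
  | succ k ih =>
    intro h
    obtain ⟨h', hh⟩ := ih h
    refine ⟨nk.s.symm h', ?_⟩
    rw [pow_succ, ← mul_assoc, hh, mul_assoc, mul_assoc, nk.cm, AlgEquiv.apply_symm_apply]

theorem gen_y (γ : Γ) : ∃ (n : ℕ) (h : H),
    ((PowerSeries.X : PowerSeries F) ^ n • γ) * nk.x ^ (nk.Q - 1) =
      nk.x ^ (nk.Q - 1) * nk.j h := by
  obtain ⟨n, h, hh⟩ := nk.gen γ
  obtain ⟨h', hh'⟩ := pow_comm2 nk (nk.Q - 1) (h 0)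
  refine ⟨n, h', ?_⟩
  have hQ := nk.hQ
  rw [hh, Finset.sum_mul, ← hh', Finset.sum_eq_single 0]
  · rw [pow_zero, mul_one]
  · intro i _ hi
    rw [mul_assoc, ← pow_add]
    have h1 : i + (nk.Q - 1) = (i - 1) + nk.Q := by omega
    rw [h1, pow_add, nk.xQ, mul_zero, mul_zero]
  · intro h0
    exfalso
    apply h0
    rw [Finset.mem_range]
    omega

end nak

theorem aex (xir : XirStmt) (crg : CrgStmt) : AexStmt := by
  intro F Γ H L V S _ _ _ _ _ _ _ _ _ _ _ _ _ nk τ σ W hW f hσ hf hn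
  have hxσ := xir F Γ H L S nk σ hσ
  have hQ := nk.hQ
  set y : Γ := nk.x ^ (nk.Q - 1) with hy
  have hyx : y * nk.x = 0 := by
    rw [hy, ← pow_succ]
    have h1 : nk.Q - 1 + 1 = nk.Q := by omega
    rw [h1, nk.xQ]
  have hxy : nk.x * y = 0 := by
    rw [hy, ← pow_succ']
    have h1 : nk.Q - 1 + 1 = nk.Q := by omega
    rw [h1, nk.xQ]
  -- the action on the image of `y`
  have hact : ∀ γ : Γ, ∃ (c : L) (h : H), ∀ v : V,
      τ.ρ γ (τ.ρ y v) = c • τ.ρ y (τ.ρ (nk.j h) v) := by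
    intro γ
    obtain ⟨n, h, hh⟩ := gen_y nk γ
    refine ⟨(algebraMap (PowerSeries F) L (PowerSeries.X ^ n))⁻¹, h, ?_⟩
    intro v
    rw [← Module.End.mul_apply (τ.ρ y), ← map_mul, hy, ← hh, map_mul, Module.End.mul_apply,
      smul_act, smul_smul, inv_mul_cancel₀ (X_ne n), one_smul]
  set V1 : Submodule L V := LinearMap.range (τ.ρ y) with hV1
  have hs1 : Stb τ V1 := by
    intro γ w hw
    obtain ⟨v, rfl⟩ := hw
    obtain ⟨c, h, hh⟩ := hact γ
    rw [hh v]
    exact V1.smul_mem c ⟨_, rfl⟩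
  let YV : V →ₗ[L] V1 := (τ.ρ y).rangeRestrict
  have hYV : ∀ v, ((YV v : V1) : V) = τ.ρ y v := fun v => rfl
  let U : Submodule L V1 := W.map YV
  have hact1 : ∀ (γ : Γ) (v : V), (subRp τ V1 hs1).ρ γ (YV v) =
      (⟨τ.ρ γ (τ.ρ y v), hs1 γ _ ⟨v, rfl⟩⟩ : V1) := fun γ v => rfl
  have hU : Stb (subRp τ V1 hs1) U := by
    rintro γ _ ⟨w, hw, rfl⟩
    obtain ⟨c, h, hh⟩ := hact γ
    have h1 : (subRp τ V1 hs1).ρ γ (YV w) = c • YV (τ.ρ (nk.j h) w) := by
      apply Subtype.ext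
      exact hh w
    rw [h1]
    exact U.smul_mem c ⟨_, hW _ w hw, rfl⟩
  have hx1 : ∀ t, (subRp τ V1 hs1).ρ nk.x t = 0 := by
    rintro ⟨_, v, rfl⟩
    apply Subtype.ext
    change τ.ρ nk.x (τ.ρ y v) = 0
    rw [← Module.End.mul_apply, ← map_mul, hxy, map_zero, LinearMap.zero_apply]
  obtain ⟨p, hp, hpU, hpid⟩ := crg.2 F Γ H L V1 nk (subRp τ V1 hs1) hx1 U hU
  let pU : V1 →ₗ[L] U := p.codRestrict U hpU
  let YW : W →ₗ[L] U := (YV.domRestrict W).codRestrict U (fun w => ⟨w.1, w.2, rfl⟩)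
  have hYW : Function.Surjective YW := by
    rintro ⟨_, w, hw, rfl⟩
    exact ⟨⟨w, hw⟩, rfl⟩
  obtain ⟨r, hr⟩ := YW.exists_rightInverse_of_surjective (LinearMap.range_eq_top.2 hYW)
  let g0 : U →ₗ[L] S := f ∘ₗ r
  have hg0 : ∀ w : W, g0 (YW w) = f w := by
    intro w
    have h1 : YW (r (YW w)) = YW w := LinearMap.congr_fun hr (YW w)
    have h2 : f (r (YW w) - w) = 0 := by
      apply hn
      apply Subtype.ext
      have h3 : YW (r (YW w) - w) = 0 := by rw [map_sub, h1, sub_self]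
      have h4 := congrArg (fun z : U => ((z : V1) : V)) h3
      exact h4
    rw [map_sub, sub_eq_zero] at h2
    exact h2
  let g : V →ₗ[L] S := g0 ∘ₗ pU ∘ₗ YV
  have hg : ∀ v, g v = g0 (pU (YV v)) := fun v => rfl
  have hnull : ∀ v, τ.ρ y v = 0 → g v = 0 := by
    intro v hv
    have h1 : YV v = 0 := Subtype.ext hv
    rw [hg, h1, map_zero, map_zero]
  have hgj : ∀ (h : H) (v : V), g (τ.ρ (nk.j h) v) = σ.ρ (nk.j h) (g v) := by
    intro h v
    obtain ⟨h', hh'⟩ := pow_comm1 nk (nk.Q - 1) h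
    rw [← hy] at hh'
    have key : ∀ v : V, YV (τ.ρ (nk.j h) v) = (subRp τ V1 hs1).ρ (nk.j h') (YV v) := by
      intro v
      apply Subtype.ext
      change τ.ρ y (τ.ρ (nk.j h) v) = τ.ρ (nk.j h') (τ.ρ y v)
      rw [← Module.End.mul_apply, ← map_mul, hh', map_mul, Module.End.mul_apply]
    rw [hg, hg, key v]
    obtain ⟨w, hw⟩ := hYW (pU (YV v))
    have h1 : pU ((subRp τ V1 hs1).ρ (nk.j h') (YV v)) =
        YW ((subRp τ W hW).ρ (nk.j h) w) := by
      apply Subtype.ext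
      change p ((subRp τ V1 hs1).ρ (nk.j h') (YV v)) = YV (τ.ρ (nk.j h) w)
      rw [hp, key]
      congr 1
      have h2 := congrArg (fun z : U => (z : V1)) hw
      exact h2.symm
    rw [h1, hg0, hf, ← hw, hg0]
  have hgx : ∀ v : V, g (τ.ρ nk.x v) = σ.ρ nk.x (g v) := by
    intro v
    rw [hxσ]
    apply hnull
    rw [← Module.End.mul_apply, ← map_mul, hyx, map_zero, LinearMap.zero_apply]
  have hgpow : ∀ (i : ℕ) (v : V), g (τ.ρ (nk.x ^ i) v) = σ.ρ (nk.x ^ i) (g v) := by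
    intro i
    induction i with
    | zero =>
      intro v
      rw [pow_zero, map_one, map_one]
      rfl
    | succ i ih =>
      intro v
      rw [pow_succ, map_mul, map_mul, Module.End.mul_apply, Module.End.mul_apply, ih, hgx]
  have hgall : IsHom τ σ g := by
    intro γ v
    obtain ⟨n, h, hh⟩ := nk.gen γ
    have h1 : g (τ.ρ ((PowerSeries.X : PowerSeries F) ^ n • γ) v) =
        σ.ρ ((PowerSeries.X : PowerSeries F) ^ n • γ) (g v) := by
      rw [hh, map_sum, map_sum, LinearMap.sum_apply, LinearMap.sum_apply, map_sum]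
      apply Finset.sum_congr rfl
      intro i _
      rw [map_mul, map_mul, Module.End.mul_apply, Module.End.mul_apply, hgj, hgpow]
    rw [smul_act, smul_act, map_smul] at h1
    exact smul_right_injective S (X_ne (L := L) (F := F) n) h1
  refine ⟨g, hgall, hnull, ?_⟩
  intro w
  have h1 : pU (YV (w : V)) = YW w := by
    apply Subtype.ext
    change p (YV (w : V)) = YV (w : V)
    exact hpid _ ⟨w.1, w.2, rfl⟩
  rw [hg, h1, hg0]

end Pool.Agent.PFC.B2.H9A
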